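import Mathlib
import Pool.Agent.H157R2.Menger

/-! Two edge-disjoint walks. -/

set_option autoImplicit false

namespace Pool.Agent.H53.GB

open SimpleGraph

section walks

variable {V : Type} {G : SimpleGraph V}

/-- the graph `G` with one more vertex, joined to the elements of `O` -/
def addPt (G : SimpleGraph V) (O : Set V) : SimpleGraph (Option V) where
  Adj a b := match a, b with
    | some a, some b => G.Adj a b
    | some a, none => a ∈ O
    | none, some b => b ∈ O
    | none, none => False
  symm := ⟨by
    intro a b h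
    cases a <;> cases b <;> simp_all [G.adj_comm]⟩
  loopless := ⟨by
    intro a
    cases a <;> simp⟩

lemma walk_none {O : Set V} : ∀ {a b : Option V} (q : (addPt G O).Walk a b), b = none →
    ∀ a', a = some a' → ∃ o ∈ O, ∃ r : G.Walk a' o, ∀ e ∈ r.edges, e.map some ∈ q.edges := by
  intro a b q
  induction q with
  | nil => intro h a' ha; rw [h] at ha; cases ha
  | @cons u v w h q ih =>
    intro hb a' ha
    subst ha
    cases v with
    | none => exact ⟨a', h, Walk.nil, by simp⟩
    | some v =>
      obtain ⟨o, ho, r, hr⟩ := ih hb v rfl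
      have h' : G.Adj a' v := h
      refine ⟨o, ho, Walk.cons h' r, ?_⟩
      intro e he
      rw [Walk.edges_cons, List.mem_cons] at he ⊢
      rcases he with rfl | he
      · left; rfl
      · right; exact hr e he

lemma first_hit {T : Set V} : ∀ {x y : V} (_ : G.Walk x y), y ∈ T →
    ∃ z ∈ T, ∃ R' : G.Walk x z, ∀ e ∈ R'.edges, ∃ v ∈ e, v ∉ T := by
  classical
  intro x y R
  induction R with
  | nil => intro h; exact ⟨_, h, Walk.nil, by simp⟩
  | @cons u v w h q ih =>
    intro hw
    by_cases hu : u ∈ T
    · exact ⟨u, hu, Walk.nil, by simp⟩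
    · obtain ⟨z, hz, R', hR'⟩ := ih hw
      refine ⟨z, hz, Walk.cons h R', ?_⟩
      intro e he
      rw [Walk.edges_cons, List.mem_cons] at he
      rcases he with rfl | he
      · exact ⟨u, by simp, hu⟩
      · exact hR' e he

lemma splice [DecidableEq V] {x y o o' : V} (hG : G.Connected) (r : G.Walk y o) (r' : G.Walk y o')
    (hd : List.Disjoint r.edges r'.edges) :
    ∃ (o₁ : V) (P : G.Walk y o₁) (W : G.Walk y x), (o₁ = o ∨ o₁ = o') ∧ W.IsPath ∧
      List.Disjoint W.edges P.edges := by
  obtain ⟨R⟩ := hG.preconnected x y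
  obtain ⟨z, hz, R', hR'⟩ := first_hit (T := {v | v ∈ r.support ∨ v ∈ r'.support}) R
    (Or.inl r.start_mem_support)
  have key : ∀ {o₁ o₂ : V} (p : G.Walk y o₁) (p' : G.Walk y o₂), List.Disjoint p.edges p'.edges →
      z ∈ p.support → (∀ e ∈ R'.edges, ∃ v ∈ e, v ∉ p'.support) →
      ∃ W : G.Walk y x, W.IsPath ∧ List.Disjoint W.edges p'.edges := by
    intro o₁ o₂ p p' hpp hzp hR
    refine ⟨((p.takeUntil z hzp).append R'.reverse).bypass, Walk.bypass_isPath _, ?_⟩
    intro e he he'
    have h1 := Walk.edges_bypass_subset_edges _ he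
    rw [Walk.edges_append, List.mem_append, Walk.edges_reverse, List.mem_reverse] at h1
    rcases h1 with h1 | h1
    · exact hpp (p.edges_takeUntil_subset_edges hzp h1) he'
    · obtain ⟨v, hv, hv'⟩ := hR e h1
      exact hv' (p'.mem_support_of_mem_edges he' hv)
  rcases hz with hz | hz
  · obtain ⟨W, h1, h2⟩ := key r r' hd hz fun e he => by
      obtain ⟨v, hv, hv'⟩ := hR' e he
      exact ⟨v, hv, fun h => hv' (Or.inr h)⟩
    exact ⟨o', r', W, Or.inr rfl, h1, h2⟩
  · obtain ⟨W, h1, h2⟩ := key r' r hd.symm hz fun e he => by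
      obtain ⟨v, hv, hv'⟩ := hR' e he
      exact ⟨v, hv, fun h => hv' (Or.inl h)⟩
    exact ⟨o, r, W, Or.inl rfl, h1, h2⟩

end walks

section menger

variable {V : Type} [Fintype V] {G : SimpleGraph V}

lemma exists_crossing (hG : G.Connected) (S : Finset V) {a b : V} (ha : a ∈ S) (hb : b ∉ S) :
    ∃ u v, u ∈ S ∧ v ∉ S ∧ G.Adj u v := by
  obtain ⟨p⟩ := hG.preconnected a b
  obtain ⟨d, hd, h1, h2⟩ := p.exists_boundary_dart (S : Set V) (by simpa using ha) (by simpa using hb)
  exact ⟨d.fst, d.snd, by simpa using h1, by simpa using h2, d.adj⟩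

/-- Two edge-disjoint walks: from `y` to the set `O` and from `y` to `x`. -/
theorem two_walks [DecidableEq V] (hG : G.Connected) {O : Finset V} (hO : 2 ≤ O.card) {x y : V}
    (hcut : ∀ S : Finset V, y ∈ S → Disjoint S O →
      2 ≤ {p : V × V | p.1 ∈ S ∧ p.2 ∉ S ∧ G.Adj p.1 p.2}.ncard) :
    ∃ o ∈ O, ∃ (P : G.Walk y o) (W : G.Walk y x), W.IsPath ∧ List.Disjoint W.edges P.edges := by
  classical
  obtain ⟨p, -, hp⟩ := Pool.Agent.H157R2.Menger.edge_menger (addPt G (O : Set V)) (some y) none
    (by simp) 2 (by
      intro S hyS hnS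
      set S' : Finset V := Finset.univ.filter fun v => some v ∈ S with hS'
      have hyS' : y ∈ S' := by simp [hS', hyS]
      -- edges of the cut
      have hc1 : ∀ u v, u ∈ S' → v ∉ S' → G.Adj u v →
          s(some u, some v) ∈ Pool.Agent.H157R2.Menger.cut (addPt G (O : Set V)) S := by
        intro u v hu hv huv
        simp only [hS', Finset.mem_filter, Finset.mem_univ, true_and] at hu hv
        simp only [Pool.Agent.H157R2.Menger.cut, Finset.mem_filter, mem_edgeFinset, mem_edgeSet]
        exact ⟨huv, ⟨some u, by simp, hu⟩, some v, by simp, hv⟩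
      have hc2 : ∀ u, u ∈ S' → u ∈ O →
          s(some u, none) ∈ Pool.Agent.H157R2.Menger.cut (addPt G (O : Set V)) S := by
        intro u hu huO
        simp only [hS', Finset.mem_filter, Finset.mem_univ, true_and] at hu
        simp only [Pool.Agent.H157R2.Menger.cut, Finset.mem_filter, mem_edgeFinset, mem_edgeSet]
        exact ⟨huO, ⟨some u, by simp, hu⟩, none, by simp, hnS⟩
      rcases Nat.lt_or_ge (S' ∩ O).card 2 with h2 | h2
      · rcases Nat.eq_zero_or_pos (S' ∩ O).card with h0 | h0
        · have hdis : Disjoint S' O := by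
            rw [Finset.disjoint_iff_inter_eq_empty]
            exact Finset.card_eq_zero.1 h0
          refine le_trans (hcut S' hyS' hdis) ?_
          rw [← Set.ncard_coe_finset]
          refine Set.ncard_le_ncard_of_injOn (fun p => s(some p.1, some p.2)) ?_ ?_ (Set.toFinite _)
          · rintro ⟨u, v⟩ ⟨hu, hv, huv⟩
            exact hc1 u v hu hv huv
          · rintro ⟨u, v⟩ ⟨hu, hv, huv⟩ ⟨u', v'⟩ ⟨hu', hv', huv'⟩ h
            simp only [Sym2.eq_iff, Option.some.injEq] at h
            rcases h with ⟨h1, h2⟩ | ⟨h1, h2⟩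
            · rw [h1, h2]
            · exact absurd (h1 ▸ hu) hv'
        · obtain ⟨u, hu⟩ := Finset.card_pos.1 h0
          rw [Finset.mem_inter] at hu
          obtain ⟨b, hb⟩ : ∃ b, b ∉ S' := by
            by_contra hno
            push Not at hno
            have : S' ∩ O = O := by
              ext z
              simp [hno z]
            rw [this] at h2
            omega
          obtain ⟨w, v, hw, hv, hwv⟩ := exists_crossing hG S' hu.1 hb
          have h3 : ({s(some u, none), s(some w, some v)} : Finset (Sym2 (Option V))) ⊆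
              Pool.Agent.H157R2.Menger.cut (addPt G (O : Set V)) S := by
            intro e he
            rw [Finset.mem_insert, Finset.mem_singleton] at he
            rcases he with rfl | rfl
            · exact hc2 u hu.1 hu.2
            · exact hc1 w v hw hv hwv
          refine le_trans ?_ (Finset.card_le_card h3)
          rw [Finset.card_pair]
          simp [Sym2.eq_iff]
      · obtain ⟨u, hu, v, hv, huv⟩ := Finset.one_lt_card.1 h2
        rw [Finset.mem_inter] at hu hv
        have h3 : ({s(some u, none), s(some v, none)} : Finset (Sym2 (Option V))) ⊆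
              Pool.Agent.H157R2.Menger.cut (addPt G (O : Set V)) S := by
          intro e he
          rw [Finset.mem_insert, Finset.mem_singleton] at he
          rcases he with rfl | rfl
          · exact hc2 u hu.1 hu.2
          · exact hc2 v hv.1 hv.2
        refine le_trans ?_ (Finset.card_le_card h3)
        rw [Finset.card_pair]
        simp [Sym2.eq_iff, huv])
  obtain ⟨o, ho, r, hr⟩ := walk_none (p 0) rfl y rfl
  obtain ⟨o', ho', r', hr'⟩ := walk_none (p 1) rfl y rfl
  have hd : List.Disjoint r.edges r'.edges := fun e he he' =>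
    hp (show (0 : Fin 2) ≠ 1 by decide) (hr e he) (hr' e he')
  obtain ⟨o₁, P, W, h1, h2, h3⟩ := splice (x := x) hG r r' hd
  refine ⟨o₁, ?_, P, W, h2, h3⟩
  rcases h1 with rfl | rfl
  · exact ho
  · exact ho'

end menger

end Pool.Agent.H53.GB
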