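import Mathlib

/-! The number of edges which leave a set of vertices of degree three. -/

set_option autoImplicit false

namespace Pool.Agent.H53.GB

open SimpleGraph

lemma card_pairs {V : Type} [Fintype V] (R : V → V → Prop) [DecidableRel R] :
    (Finset.univ.filter fun p : V × V => R p.1 p.2).card =
      ∑ v, (Finset.univ.filter fun u => R v u).card := by
  rw [Finset.card_filter, Fintype.sum_prod_type]
  refine Finset.sum_congr rfl fun v _ => ?_
  rw [Finset.card_filter]

theorem cut_three {V : Type} [Fintype V] [DecidableEq V] {G : SimpleGraph V} [DecidableRel G.Adj]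
    (hA : ∀ H : G.Subgraph, H.Connected → 2 * H.edgeSet.ncard + 3 ≤ 3 * H.verts.ncard)
    {S : Finset V} {y : V} (hy : y ∈ S) (hdeg : ∀ v ∈ S, G.degree v = 3) :
    3 ≤ {p : V × V | p.1 ∈ S ∧ p.2 ∉ S ∧ G.Adj p.1 p.2}.ncard := by
  classical
  set K : Set V := {v | ∃ p : G.Walk y v, ∀ u ∈ p.support, u ∈ S} with hK
  have hKS : ∀ v ∈ K, v ∈ S := fun v ⟨p, hp⟩ => hp v p.end_mem_support
  have hyK : y ∈ K := ⟨Walk.nil, by simpa using hy⟩
  have hstep : ∀ v ∈ K, ∀ u ∈ S, G.Adj v u → u ∈ K := by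
    rintro v ⟨p, hp⟩ u hu hvu
    refine ⟨p.concat hvu, ?_⟩
    intro w hw
    rw [Walk.support_concat, List.mem_append, List.mem_singleton] at hw
    rcases hw with hw | rfl
    · exact hp w hw
    · exact hu
  have hpre : ∀ v (p : G.Walk y v), (∀ u ∈ p.support, u ∈ S) → ∀ u ∈ p.support, u ∈ K := by
    intro v p hp u hu
    exact ⟨p.takeUntil u hu, fun w hw => hp w (p.support_takeUntil_subset_support hu hw)⟩
  set H : G.Subgraph := (⊤ : G.Subgraph).induce K with hH
  have hHc : H.Connected := by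
    rw [Subgraph.connected_iff_forall_exists_walk_subgraph]
    refine ⟨⟨y, hyK⟩, ?_⟩
    have h1 : ∀ v ∈ K, ∃ p : G.Walk y v, p.toSubgraph ≤ H := by
      rintro v ⟨p, hp⟩
      refine ⟨p, le_trans (Walk.toSubgraph_le_induce_support p) ?_⟩
      exact Subgraph.induce_mono_right fun u hu => hpre v p hp u hu
    intro u v hu hv
    obtain ⟨p, hp⟩ := h1 u hu
    obtain ⟨q, hq⟩ := h1 v hv
    refine ⟨p.reverse.append q, ?_⟩
    rw [Walk.toSubgraph_append, Walk.toSubgraph_reverse]
    exact sup_le hp hq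
  have h2 := hA H hHc
  have hadj : ∀ u v, H.Adj u v ↔ u ∈ K ∧ v ∈ K ∧ G.Adj u v := by
    intro u v
    rw [hH, Subgraph.induce_adj]
    simp
  have hE : 2 * H.edgeSet.ncard =
      (Finset.univ.filter fun p : V × V => p.1 ∈ K ∧ p.2 ∈ K ∧ G.Adj p.1 p.2).card := by
    have h3 := H.spanningCoe.sum_degrees_eq_twice_card_edges
    have h4 : H.edgeSet.ncard = H.spanningCoe.edgeFinset.card := by
      rw [← Set.ncard_coe_finset]
      congr 1
      ext e
      simp
    rw [h4, ← h3, card_pairs (fun u v => u ∈ K ∧ v ∈ K ∧ G.Adj u v)]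
    refine Finset.sum_congr rfl fun v _ => ?_
    rw [← SimpleGraph.card_neighborFinset_eq_degree]
    congr 1
    ext u
    rw [SimpleGraph.mem_neighborFinset, Subgraph.spanningCoe_adj, hadj]
    simp
  have hV : H.verts.ncard = (Finset.univ.filter fun v => v ∈ K).card := by
    rw [← Set.ncard_coe_finset]
    congr 1
    ext v
    simp [hH]
  have hall : (Finset.univ.filter fun p : V × V => p.1 ∈ K ∧ G.Adj p.1 p.2).card =
      3 * (Finset.univ.filter fun v => v ∈ K).card := by
    rw [card_pairs (fun u v => u ∈ K ∧ G.Adj u v)]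
    have h5 : ∀ v, (Finset.univ.filter fun u => v ∈ K ∧ G.Adj v u).card = if v ∈ K then 3 else 0 := by
      intro v
      by_cases hv : v ∈ K
      · rw [if_pos hv, ← hdeg v (hKS v hv), ← SimpleGraph.card_neighborFinset_eq_degree]
        congr 1
        ext u
        simp [hv]
      · rw [if_neg hv]
        simp [hv]
    rw [Finset.sum_congr rfl fun v _ => h5 v, ← Finset.sum_filter, Finset.sum_const]
    simp [mul_comm]
  have hsplit : (Finset.univ.filter fun p : V × V => p.1 ∈ K ∧ G.Adj p.1 p.2).card =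
      (Finset.univ.filter fun p : V × V => p.1 ∈ K ∧ p.2 ∈ K ∧ G.Adj p.1 p.2).card +
      (Finset.univ.filter fun p : V × V => p.1 ∈ K ∧ p.2 ∉ K ∧ G.Adj p.1 p.2).card := by
    rw [← Finset.card_union_of_disjoint]
    · congr 1
      ext ⟨u, v⟩
      simp only [Finset.mem_filter, Finset.mem_univ, true_and, Finset.mem_union]
      tauto
    · rw [Finset.disjoint_left]
      rintro ⟨u, v⟩ h6 h7
      simp only [Finset.mem_filter, Finset.mem_univ, true_and] at h6 h7
      exact h7.2.1 h6.2.1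
  have hle : (Finset.univ.filter fun p : V × V => p.1 ∈ K ∧ p.2 ∉ K ∧ G.Adj p.1 p.2).card ≤
      {p : V × V | p.1 ∈ S ∧ p.2 ∉ S ∧ G.Adj p.1 p.2}.ncard := by
    rw [← Set.ncard_coe_finset]
    refine Set.ncard_le_ncard ?_ (Set.toFinite _)
    rintro ⟨u, v⟩ h6
    simp only [Finset.coe_filter, Finset.mem_univ, true_and, Set.mem_ofPred_eq] at h6 ⊢
    exact ⟨hKS u h6.1, fun hv => h6.2.1 (hstep u h6.1 v hv h6.2.2), h6.2.2⟩
  rw [hV] at h2
  omega

end Pool.Agent.H53.GB
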