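import Mathlib

/-! Alternating forms killed by vectors. -/

set_option autoImplicit false

namespace Pool.Agent.H53.GB

variable {k : Type} [Field k] {W : Type} [AddCommGroup W] [Module k W]

/-- The contraction of `A` with `x` vanishes: `A` is zero on all families which contain `x`. -/
def Kills {i : ℕ} (x : W) (A : W [⋀^Fin i]→ₗ[k] k) : Prop := ∀ w : Fin i → W, x ∈ Set.range w → A w = 0

/-- exterior product of a linear form and an alternating form -/
noncomputable def wedge {i : ℕ} (φ : W →ₗ[k] k) (A : W [⋀^Fin i]→ₗ[k] k) : W [⋀^Fin (i + 1)]→ₗ[k] k :=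
  AlternatingMap.alternatizeUncurryFin (φ.smulRight A)

lemma Kills.add {i : ℕ} {x : W} {A B : W [⋀^Fin i]→ₗ[k] k} (hA : Kills x A) (hB : Kills x B) :
    Kills x (A + B) := fun w hw => by rw [AlternatingMap.add_apply, hA w hw, hB w hw, add_zero]

lemma wedge_curryLeft {i : ℕ} {φ : W →ₗ[k] k} {A : W [⋀^Fin i]→ₗ[k] k} {x : W} (h : Kills x A) :
    (wedge φ A).curryLeft x = φ x • A := by
  ext w
  rw [AlternatingMap.curryLeft_apply_apply, wedge, AlternatingMap.alternatizeUncurryFin_apply,
    Fin.sum_univ_succ, Finset.sum_eq_zero, add_zero]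
  · simp [Matrix.vecCons]
  · intro j _
    have : 0 < i := by
      have := j.2
      omega
    obtain ⟨i', rfl⟩ : ∃ i', i = i' + 1 := ⟨i - 1, by omega⟩
    have h0 : A (Fin.removeNth j.succ (Matrix.vecCons x w)) = 0 := by
      refine h _ ⟨0, ?_⟩
      rw [Fin.removeNth_apply]
      simp
    rw [LinearMap.smulRight_apply, AlternatingMap.smul_apply, h0, smul_zero, smul_zero]

lemma kills_iff {i : ℕ} {x : W} {A : W [⋀^Fin (i + 1)]→ₗ[k] k} : Kills x A ↔ A.curryLeft x = 0 := by
  constructor
  · intro h
    ext w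
    rw [AlternatingMap.curryLeft_apply_apply]
    exact h _ ⟨0, rfl⟩
  · rintro h w ⟨j, rfl⟩
    by_cases hj : j = 0
    · subst hj
      have h1 := congrArg (fun B => B (Fin.tail w)) h
      simp only [AlternatingMap.curryLeft_apply_apply] at h1
      have h2 : Matrix.vecCons (w 0) (Fin.tail w) = w := Fin.cons_self_tail w
      rw [h2] at h1
      simpa using h1
    · have h3 := A.map_swap w (Ne.symm hj)
      have h1 := congrArg (fun B => B (Fin.tail (w ∘ Equiv.swap 0 j))) h
      simp only [AlternatingMap.curryLeft_apply_apply] at h1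
      have h2 : Matrix.vecCons (w j) (Fin.tail (w ∘ Equiv.swap 0 j)) = w ∘ Equiv.swap 0 j := by
        have := Fin.cons_self_tail (w ∘ Equiv.swap 0 j)
        rw [← this]
        simp [Matrix.vecCons]
      rw [h2, h3] at h1
      simpa using h1

lemma kills_curryLeft {i : ℕ} {x y : W} {A : W [⋀^Fin (i + 1)]→ₗ[k] k} (h : Kills x A) :
    Kills x (A.curryLeft y) := by
  rintro w ⟨j, rfl⟩
  exact h _ ⟨j.succ, by simp⟩

lemma kills_curryLeft_self {i : ℕ} {x : W} {A : W [⋀^Fin (i + 1)]→ₗ[k] k} :
    Kills x (A.curryLeft x) := by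
  rintro w ⟨j, rfl⟩
  rw [AlternatingMap.curryLeft_apply_apply]
  exact A.map_eq_zero_of_eq _ (i := 0) (j := j.succ) (by simp [Matrix.vecCons]) (Fin.succ_ne_zero j).symm

lemma exists_functional {a b : W} (h : LinearIndependent k ![a, b]) :
    ∃ φ : W →ₗ[k] k, φ a = 1 ∧ φ b = 0 := by
  obtain ⟨f, hf⟩ := LinearMap.exists_extend (p := Submodule.span k (Set.range ![a, b]))
    ((Module.Basis.span h).coord 0)
  refine ⟨f, ?_, ?_⟩
  · have h1 : f ((Module.Basis.span h 0 : Submodule.span k (Set.range ![a, b])) : W) =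
        (Module.Basis.span h).coord 0 (Module.Basis.span h 0) := by
      rw [← hf]; rfl
    have h2 : (Module.Basis.span h).coord 0 (Module.Basis.span h 0) = 1 := by
      rw [Module.Basis.coord_apply, Module.Basis.repr_self]
      simp
    rw [h2, Module.Basis.span_apply] at h1
    exact h1
  · have h1 : f ((Module.Basis.span h 1 : Submodule.span k (Set.range ![a, b])) : W) =
        (Module.Basis.span h).coord 0 (Module.Basis.span h 1) := by
      rw [← hf]; rfl
    have h2 : (Module.Basis.span h).coord 0 (Module.Basis.span h 1) = 0 := by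
      rw [Module.Basis.coord_apply, Module.Basis.repr_self]
      simp
    rw [h2, Module.Basis.span_apply] at h1
    exact h1

lemma swapInd {a b : W} (h : LinearIndependent k ![a, b]) : LinearIndependent k ![b, a] :=
  LinearIndependent.pair_symm_iff.1 h

/-- a family of forms on a plane whose contractions vanish is the contraction of a form -/
lemma exists_primitive {i : ℕ} {a b : W} (h : LinearIndependent k ![a, b])
    {A B : W [⋀^Fin i]→ₗ[k] k} (hA : Kills a A) (hB : Kills b B) (hAB : Kills (a + b) (A + B)) :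
    ∃ P : W [⋀^Fin (i + 1)]→ₗ[k] k, P.curryLeft a = A ∧ P.curryLeft b = B := by
  obtain ⟨φ, hφa, hφb⟩ := exists_functional h
  obtain ⟨ψ, hψb, hψa⟩ := exists_functional (swapInd h)
  set P₀ := wedge φ A with hP₀
  have h1 : P₀.curryLeft a = A := by rw [hP₀, wedge_curryLeft hA, hφa, one_smul]
  set B' := B - P₀.curryLeft b with hB'
  have hb : Kills b B' := by
    intro w hw
    rw [hB', AlternatingMap.sub_apply, hB w hw, kills_curryLeft_self w hw, sub_zero]
  have ha : Kills a B' := by
    rintro w ⟨j, hj⟩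
    have h2 := hAB (Function.update w j (a + b)) ⟨j, by simp⟩
    rw [AlternatingMap.add_apply, AlternatingMap.map_update_add, AlternatingMap.map_update_add] at h2
    have h3 : Function.update w j a = w := by rw [← hj, Function.update_eq_self]
    rw [h3, hA w ⟨j, hj⟩, hB (Function.update w j b) ⟨j, by simp⟩, zero_add, add_zero] at h2
    have h4 : A (Function.update w j b) = P₀ (Matrix.vecCons a (Function.update w j b)) := by
      rw [← h1]; rfl
    have h5 : P₀ (Matrix.vecCons a (Function.update w j b)) = - P₀ (Matrix.vecCons b w) := by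
      have h6 := P₀.map_swap (Matrix.vecCons b w) (i := 0) (j := j.succ) (Fin.succ_ne_zero j).symm
      rw [← h6]
      congr 1
      funext l
      refine Fin.cases ?_ (fun l => ?_) l
      · simp [Matrix.vecCons, hj]
      · by_cases hl : l = j
        · subst hl
          simp [Matrix.vecCons]
        · rw [Function.comp_apply, Equiv.swap_apply_of_ne_of_ne (Fin.succ_ne_zero l)
            (fun h => hl (Fin.succ_injective _ h))]
          simp [Matrix.vecCons, hl]
    rw [hB', AlternatingMap.sub_apply, AlternatingMap.curryLeft_apply_apply]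
    rw [h4, h5] at h2
    linear_combination h2
  refine ⟨P₀ + wedge ψ B', ?_, ?_⟩
  · rw [AlternatingMap.curryLeft_add, LinearMap.add_apply, h1, wedge_curryLeft ha, hψa, zero_smul,
      add_zero]
  · rw [AlternatingMap.curryLeft_add, LinearMap.add_apply, wedge_curryLeft hb, hψb, one_smul, hB']
    abel

lemma alt_eq_zero {N : ℕ} (R : (Fin N → k) [⋀^Fin (N + 1)]→ₗ[k] k) : R = 0 := by
  ext v
  refine R.map_linearDependent v ?_
  intro h
  have h1 := h.fintype_card_le_finrank
  simp at h1

/-- a form of degree one less than the dimension which is killed by two independent vectors is zero -/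
lemma eq_zero_of_kills {N : ℕ} {a b : Fin (N + 1) → k} (h : LinearIndependent k ![a, b])
    {p : (Fin (N + 1) → k) [⋀^Fin N]→ₗ[k] k} (ha : Kills a p) (hb : Kills b p) : p = 0 := by
  obtain ⟨φ, hφa, hφb⟩ := exists_functional h
  have h1 : (wedge φ p).curryLeft a = p := by rw [wedge_curryLeft ha, hφa, one_smul]
  have h2 : Kills b (wedge φ p) := by
    rw [kills_iff, wedge_curryLeft hb, hφb, zero_smul]
  obtain ⟨ψ, hψb, hψa⟩ := exists_functional (swapInd h)
  have h3 : (wedge ψ (wedge φ p)).curryLeft b = wedge φ p := by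
    rw [wedge_curryLeft h2, hψb, one_smul]
  rw [alt_eq_zero (wedge ψ (wedge φ p))] at h3
  rw [← h1, ← h3]
  ext w
  simp

/-- the determinant as an alternating form -/
noncomputable def vol (k : Type) [Field k] (m : ℕ) : (Fin m → k) [⋀^Fin m]→ₗ[k] k :=
  (Pi.basisFun k (Fin m)).det

lemma vol_ne_zero (m : ℕ) : vol k m ≠ 0 := by
  intro h
  have h1 := congrArg (fun A => A (Pi.basisFun k (Fin m))) h
  simp only [vol, Module.Basis.det_self] at h1
  simp at h1

/-- the contraction of the determinant with a vector -/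
noncomputable def nu (k : Type) [Field k] (N : ℕ) : (Fin (N + 1) → k) →ₗ[k] ((Fin (N + 1) → k) [⋀^Fin N]→ₗ[k] k) :=
  (vol k (N + 1)).curryLeft

lemma nu_inj {N : ℕ} {x : Fin (N + 1) → k} (h : nu k N x = 0) : x = 0 := by
  have h1 : Kills x (vol k (N + 1)) := kills_iff.2 h
  funext j
  have h2 := wedge_curryLeft (φ := LinearMap.proj (R := k) j) h1
  rw [alt_eq_zero (wedge (LinearMap.proj (R := k) j) (vol k (N + 1)))] at h2
  have h3 : (LinearMap.proj (R := k) j x) • vol k (N + 1) = 0 := by
    rw [← h2]
    ext w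
    simp
  rcases smul_eq_zero.1 h3 with h4 | h4
  · exact h4
  · exact absurd h4 (vol_ne_zero _)

lemma exists_smul_nu {N : ℕ} {x : Fin (N + 1) → k} (hx : x ≠ 0)
    {p : (Fin (N + 1) → k) [⋀^Fin N]→ₗ[k] k} (h : Kills x p) : ∃ c : k, p = c • nu k N x := by
  obtain ⟨j, hj⟩ := Function.ne_iff.1 hx
  have h1 := wedge_curryLeft (φ := (x j)⁻¹ • LinearMap.proj (R := k) j) h
  have h2 : ((x j)⁻¹ • LinearMap.proj (R := k) j : (Fin (N + 1) → k) →ₗ[k] k) x = 1 := by
    simp only [LinearMap.smul_apply, LinearMap.proj_apply, smul_eq_mul]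
    exact inv_mul_cancel₀ hj
  rw [h2, one_smul] at h1
  set Q := wedge ((x j)⁻¹ • LinearMap.proj (R := k) j) p
  refine ⟨Q (Pi.basisFun k (Fin (N + 1))), ?_⟩
  have h3 := AlternatingMap.eq_smul_basis_det (e := Pi.basisFun k (Fin (N + 1))) Q
  rw [← h1, nu, vol]
  conv_lhs => rw [h3]
  rw [AlternatingMap.curryLeft_smul, LinearMap.smul_apply]

end Pool.Agent.H53.GB
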