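import Mathlib

/-! Linear relations between the lines of a graph curve. -/

set_option autoImplicit false
set_option linter.unusedSectionVars false

namespace Pool.Agent.H53.GB

open SimpleGraph

/-- Intersection vectors `X u v` of a configuration of planes `ℓ v`. -/
structure Conf {k : Type} [Field k] {W : Type} [AddCommGroup W] [Module k W] {V : Type}
    (G : SimpleGraph V) (ℓ : V → Submodule k W) (X : V → V → W) : Prop where
  symm : ∀ u v, X u v = X v u
  zero : ∀ u v, ¬ G.Adj u v → X u v = 0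
  mem : ∀ u v, X u v ∈ ℓ u
  ne : ∀ u v, G.Adj u v → X u v ≠ 0
  ind : ∀ u v v', G.Adj u v → G.Adj u v' → v ≠ v' → LinearIndependent k ![X u v, X u v']

section

variable {k : Type} [Field k] {W : Type} [AddCommGroup W] [Module k W] {V : Type} [Fintype V]
  [DecidableEq V] {G : SimpleGraph V} [DecidableRel G.Adj] {ℓ : V → Submodule k W} {X : V → V → W}

/-- the relation at a vertex of degree at most three -/
lemma Conf.local (h : Conf G ℓ X) {u : V} (hu : G.degree u ≤ 3) {σ : V → k}
    (hσ : ∑ v, σ v • X u v = 0) :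
    (∀ v, G.Adj u v → σ v = 0) ∨ (G.degree u = 3 ∧ ∀ v, G.Adj u v → σ v ≠ 0) := by
  classical
  set S : Finset V := (G.neighborFinset u).filter fun v => σ v ≠ 0 with hS
  have hsum : ∑ v ∈ S, σ v • X u v = 0 := by
    rw [← hσ]
    refine Finset.sum_subset (Finset.subset_univ _) ?_
    intro v _ hv
    by_cases hadj : G.Adj u v
    · have : σ v = 0 := by
        by_contra h0
        exact hv (by simp [hS, hadj, h0])
      rw [this, zero_smul]
    · rw [h.zero u v hadj, smul_zero]
  have hSle : S.card ≤ G.degree u := by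
    rw [← SimpleGraph.card_neighborFinset_eq_degree]
    exact Finset.card_le_card (Finset.filter_subset _ _)
  have hSm : ∀ v, v ∈ S ↔ G.Adj u v ∧ σ v ≠ 0 := by
    intro v
    simp [hS]
  rcases Nat.lt_or_ge S.card 3 with h3 | h3
  · left
    have hS0 : S = ∅ := by
      have hc : S.card = 0 ∨ S.card = 1 ∨ S.card = 2 := by omega
      rcases hc with hc | hc | hc
      · exact Finset.card_eq_zero.1 hc
      · obtain ⟨v, hv⟩ := Finset.card_eq_one.1 hc
        have hvS : v ∈ S := by rw [hv]; simp
        rw [hv, Finset.sum_singleton] at hsum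
        rcases smul_eq_zero.1 hsum with h1 | h1
        · exact absurd h1 ((hSm v).1 hvS).2
        · exact absurd h1 (h.ne u v ((hSm v).1 hvS).1)
      · obtain ⟨v, v', hvv, hv⟩ := Finset.card_eq_two.1 hc
        have hvS : v ∈ S := by rw [hv]; simp
        have hvS' : v' ∈ S := by rw [hv]; simp
        rw [hv, Finset.sum_pair hvv] at hsum
        have hi := h.ind u v v' ((hSm v).1 hvS).1 ((hSm v').1 hvS').1 hvv
        rw [LinearIndependent.pair_iff] at hi
        exact absurd (hi _ _ hsum).1 ((hSm v).1 hvS).2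
    intro v hv
    by_contra h0
    have : v ∈ S := (hSm v).2 ⟨hv, h0⟩
    rw [hS0] at this
    simp at this
  · right
    refine ⟨by omega, fun v hv => ?_⟩
    have hSe : S = G.neighborFinset u := by
      refine Finset.eq_of_subset_of_card_le (Finset.filter_subset _ _) ?_
      rw [SimpleGraph.card_neighborFinset_eq_degree]
      omega
    have : v ∈ S := by
      rw [hSe]
      simpa using hv
    exact ((hSm v).1 this).2

/-- antisymmetric relations vanish if some vertex has degree less than three -/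
lemma Conf.antisymm_zero (h : Conf G ℓ X) (hG : G.Connected) (hd : ∀ v, G.degree v ≤ 3)
    (hd' : ∃ v, G.degree v ≠ 3) {s : V → V → k} (hs : ∀ u v, s u v = - s v u)
    (hrel : ∀ u, ∑ v, s u v • X u v = 0) : ∀ u v, G.Adj u v → s u v = 0 := by
  classical
  by_contra hcon
  push Not at hcon
  obtain ⟨u₀, v₀, hadj₀, hne₀⟩ := hcon
  have hT : ∀ u, (∃ v, G.Adj u v ∧ s u v ≠ 0) → G.degree u = 3 ∧ ∀ v, G.Adj u v → s u v ≠ 0 := by
    rintro u ⟨v, hv, hsv⟩
    rcases h.local (hd u) (hrel u) with h1 | h1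
    · exact absurd (h1 v hv) hsv
    · exact h1
  have hwalk : ∀ {a b : V} (_ : G.Walk a b), (∃ v, G.Adj a v ∧ s a v ≠ 0) →
      ∃ v, G.Adj b v ∧ s b v ≠ 0 := by
    intro a b p
    induction p with
    | nil => exact fun h => h
    | @cons a b c hab q ih =>
      intro ha
      have h1 := (hT a ha).2 b hab
      refine ih ⟨a, hab.symm, ?_⟩
      rw [hs b a]
      exact neg_ne_zero.2 h1
  have hall : ∀ u, ∃ v, G.Adj u v ∧ s u v ≠ 0 := by
    intro u
    obtain ⟨p⟩ := hG.preconnected u₀ u
    exact hwalk p ⟨v₀, hadj₀, hne₀⟩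
  obtain ⟨w, hw⟩ := hd'
  exact hw (hT w (hall w)).1

/-- the linear map of the sum of the planes -/
noncomputable def sumMap (ℓ : V → Submodule k W) : (∀ v, ℓ v) →ₗ[k] W :=
  ∑ v, (ℓ v).subtype ∘ₗ LinearMap.proj v

lemma sumMap_apply (y : ∀ v, ℓ v) : sumMap ℓ y = ∑ v, (y v : W) := by
  simp [sumMap]

/-- the antisymmetric function of a function on edges -/
noncomputable def anti (G : SimpleGraph V) [DecidableRel G.Adj] (t : G.edgeSet → k) (u v : V) : k :=
  if h : G.Adj u v then (if Fintype.equivFin V u < Fintype.equivFin V v then t ⟨s(u, v), h⟩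
    else - t ⟨s(u, v), h⟩) else 0

lemma anti_symm (t : G.edgeSet → k) (u v : V) : anti G t u v = - anti G t v u := by
  unfold anti
  by_cases h : G.Adj u v
  · have h' : G.Adj v u := h.symm
    rw [dif_pos h, dif_pos h']
    have he : (⟨s(u, v), h⟩ : G.edgeSet) = ⟨s(v, u), h'⟩ := Subtype.ext Sym2.eq_swap
    rw [he]
    have hne : Fintype.equivFin V u ≠ Fintype.equivFin V v := fun h1 =>
      h.ne ((Fintype.equivFin V).injective h1)
    rcases lt_or_gt_of_ne hne with h1 | h1
    · rw [if_pos h1, if_neg (not_lt.2 h1.le), neg_neg]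
    · rw [if_neg (not_lt.2 h1.le), if_pos h1]
  · rw [dif_neg h, dif_neg (fun h' => h h'.symm), neg_zero]

lemma anti_eq_zero {t : G.edgeSet → k} (h : ∀ u v, G.Adj u v → anti G t u v = 0) : t = 0 := by
  funext ⟨e, he⟩
  induction e with
  | _ u v =>
    have h1 := h u v he
    have hadj : G.Adj u v := he
    unfold anti at h1
    rw [dif_pos hadj] at h1
    split_ifs at h1
    · exact h1
    · exact neg_eq_zero.1 h1

/-- the edge relations -/
noncomputable def relMap (h : Conf G ℓ X) : (G.edgeSet → k) →ₗ[k] (∀ v, ℓ v) where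
  toFun t u := ⟨∑ v, anti G t u v • X u v, Submodule.sum_mem _ fun v _ =>
    Submodule.smul_mem _ _ (h.mem u v)⟩
  map_add' t t' := by
    funext u
    apply Subtype.ext
    simp only [Pi.add_apply, Submodule.coe_add]
    rw [← Finset.sum_add_distrib]
    refine Finset.sum_congr rfl fun v _ => ?_
    rw [← add_smul]
    congr 1
    unfold anti
    split_ifs <;> simp [add_comm]
  map_smul' c t := by
    funext u
    apply Subtype.ext
    simp only [Pi.smul_apply, RingHom.id_apply, Submodule.coe_smul]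
    rw [Finset.smul_sum]
    refine Finset.sum_congr rfl fun v _ => ?_
    rw [smul_smul]
    congr 1
    unfold anti
    split_ifs <;> simp

lemma relMap_coe (h : Conf G ℓ X) (t : G.edgeSet → k) (u : V) :
    (relMap h t u : W) = ∑ v, anti G t u v • X u v := rfl

lemma sum_antisymm [CharZero k] {Y : Type} [AddCommGroup Y] [Module k Y] {s : V → V → k}
    (hs : ∀ u v, s u v = - s v u) {g : V → V → Y} (hg : ∀ u v, s u v ≠ 0 → g u v = g v u) :
    ∑ u, ∑ v, s u v • g u v = 0 := by
  have h1 : ∑ u, ∑ v, s u v • g u v = - ∑ u, ∑ v, s u v • g u v := by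
    conv_rhs => rw [Finset.sum_comm]
    rw [← Finset.sum_neg_distrib]
    refine Finset.sum_congr rfl fun u _ => ?_
    rw [← Finset.sum_neg_distrib]
    refine Finset.sum_congr rfl fun v _ => ?_
    by_cases h0 : s u v = 0
    · have h2 : s v u = 0 := by rw [hs v u, h0, neg_zero]
      rw [h0, h2]
      simp
    · rw [hg u v h0, hs u v, neg_smul]
  have h2 : (2 : k) • ∑ u, ∑ v, s u v • g u v = 0 := by
    rw [two_smul]
    nth_rewrite 1 [h1]
    exact neg_add_cancel _
  rcases smul_eq_zero.1 h2 with h3 | h3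
  · exact absurd h3 two_ne_zero
  · exact h3

/-- the data of a nondegenerate configuration -/
structure Nondeg (G : SimpleGraph V) [DecidableRel G.Adj] (ℓ : V → Submodule k W) (X : V → V → W) :
    Prop extends Conf G ℓ X where
  conn : G.Connected
  deg_le : ∀ v, G.degree v ≤ 3
  deg_ne : ∃ v, G.degree v ≠ 3
  finrank : ∀ v, Module.finrank k (ℓ v) = 2
  span : ⨆ v, ℓ v = ⊤
  dim : Module.finrank k W + Fintype.card G.edgeSet = 2 * Fintype.card V

variable [FiniteDimensional k W]

lemma Nondeg.surj (h : Nondeg G ℓ X) : Function.Surjective (sumMap ℓ) := by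
  rw [← LinearMap.range_eq_top, eq_top_iff, ← h.span, iSup_le_iff]
  intro v y hy
  refine ⟨Pi.single v ⟨y, hy⟩, ?_⟩
  rw [sumMap_apply, Finset.sum_eq_single v]
  · simp
  · intro u _ hu
    rw [Pi.single_eq_of_ne hu]
    rfl
  · simp

lemma Nondeg.ker (h : Nondeg G ℓ X) [CharZero k] :
    LinearMap.ker (sumMap ℓ) = LinearMap.range (relMap h.toConf) := by
  symm
  have hinj : Function.Injective (relMap h.toConf) := by
    rw [← LinearMap.ker_eq_bot, LinearMap.ker_eq_bot']
    intro t ht
    refine anti_eq_zero (h.toConf.antisymm_zero h.conn h.deg_le h.deg_ne (anti_symm t) fun u => ?_)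
    rw [← relMap_coe h.toConf, ht]
    rfl
  refine Submodule.eq_of_le_of_finrank_eq ?_ ?_
  · rintro _ ⟨t, rfl⟩
    rw [LinearMap.mem_ker, sumMap_apply]
    simp only [relMap_coe]
    exact sum_antisymm (anti_symm t) fun u v _ => h.symm u v
  · rw [LinearMap.finrank_range_of_inj hinj, Module.finrank_fintype_fun_eq_card]
    have h1 := LinearMap.finrank_range_add_finrank_ker (sumMap ℓ)
    rw [LinearMap.range_eq_top.2 h.surj, finrank_top, Module.finrank_pi_fintype,
      Finset.sum_congr rfl fun v _ => h.finrank v] at h1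
    have h2 := h.dim
    simp only [Finset.sum_const, Finset.card_univ, smul_eq_mul] at h1
    omega

/-- The relation lemma. -/
lemma Nondeg.relation (h : Nondeg G ℓ X) [CharZero k] {a : V → V → k}
    (ha : ∑ u, ∑ v, a u v • X u v = 0) :
    ∃ s : V → V → k, (∀ u v, s u v = - s v u) ∧ ∀ u, ∑ v, (a u v - s u v) • X u v = 0 := by
  have h1 : (fun u => (⟨∑ v, a u v • X u v, Submodule.sum_mem _ fun v _ =>
      Submodule.smul_mem _ _ (h.mem u v)⟩ : ℓ u)) ∈ LinearMap.ker (sumMap ℓ) := by
    rw [LinearMap.mem_ker, sumMap_apply]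
    exact ha
  rw [h.ker] at h1
  obtain ⟨t, ht⟩ := h1
  refine ⟨anti G t, anti_symm t, fun u => ?_⟩
  have h2 := congrArg (fun y : ∀ v, ℓ v => (y u : W)) ht
  simp only [relMap_coe] at h2
  simp only [sub_smul, Finset.sum_sub_distrib]
  rw [h2, sub_self]

/-- The extension lemma. -/
lemma Nondeg.extend (h : Nondeg G ℓ X) [CharZero k] {Y : Type} [AddCommGroup Y] [Module k Y]
    (f : ∀ v, ℓ v →ₗ[k] Y)
    (hf : ∀ u v, G.Adj u v → ∀ (x : W) (hx : x ∈ ℓ u) (hx' : x ∈ ℓ v), f u ⟨x, hx⟩ = f v ⟨x, hx'⟩) :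
    ∃ F : W →ₗ[k] Y, ∀ v (x : ℓ v), F x = f v x := by
  obtain ⟨g, hg⟩ := (sumMap ℓ).exists_rightInverse_of_surjective (LinearMap.range_eq_top.2 h.surj)
  set f' : (∀ v, ℓ v) →ₗ[k] Y := ∑ v, f v ∘ₗ LinearMap.proj v with hf'
  have hfa : ∀ y, f' y = ∑ v, f v (y v) := by
    intro y
    simp [hf']
  have hker : ∀ y, sumMap ℓ y = 0 → f' y = 0 := by
    intro y hy
    have h1 : y ∈ LinearMap.ker (sumMap ℓ) := hy
    rw [h.ker] at h1
    obtain ⟨t, rfl⟩ := h1
    rw [hfa]
    have h2 : ∀ u, f u (relMap h.toConf t u) =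
        ∑ v, anti G t u v • f u ⟨X u v, h.mem u v⟩ := by
      intro u
      have h3 : relMap h.toConf t u = ∑ v, anti G t u v • (⟨X u v, h.mem u v⟩ : ℓ u) := by
        apply Subtype.ext
        rw [relMap_coe]
        simp
      rw [h3, map_sum]
      exact Finset.sum_congr rfl fun v _ => map_smul _ _ _
    simp only [h2]
    refine sum_antisymm (anti_symm t) fun u v hne => ?_
    have hadj : G.Adj u v := by
      by_contra hn
      apply hne
      unfold anti
      rw [dif_neg hn]
    rw [hf u v hadj (X u v) (h.mem u v) (by rw [h.symm]; exact h.mem v u)]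
    congr 1
    exact Subtype.ext (h.symm u v)
  refine ⟨f' ∘ₗ g, fun v x => ?_⟩
  have h3 : sumMap ℓ (g x - Pi.single v x) = 0 := by
    rw [map_sub]
    have h4 : sumMap ℓ (g x) = x := by
      have := congrArg (fun φ => φ (x : W)) hg
      simpa using this
    rw [h4, sumMap_apply, Finset.sum_eq_single v]
    · simp
    · intro u _ hu
      rw [Pi.single_eq_of_ne hu]
      rfl
    · simp
  have h5 := hker _ h3
  rw [map_sub, sub_eq_zero] at h5
  rw [LinearMap.comp_apply, h5, hfa, Finset.sum_eq_single v]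
  · simp
  · intro u _ hu
    rw [Pi.single_eq_of_ne hu, map_zero]
  · simp

end

end Pool.Agent.H53.GB
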