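import Mathlib
import Pool.Agent.H53.GB.Comb
import Pool.Agent.H53.GB.Cut
import Pool.Agent.H53.GB.Rel

/-! Systems of vectors whose differences along the edges are multiples of the intersection points. -/

set_option autoImplicit false
set_option linter.unusedSectionVars false

namespace Pool.Agent.H53.GB

open SimpleGraph

section

variable {k : Type} [Field k] {W : Type} [AddCommGroup W] [Module k W] {V : Type} [Fintype V]
  [DecidableEq V] {G : SimpleGraph V} [DecidableRel G.Adj] {ℓ : V → Submodule k W} {X : V → V → W}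
  [FiniteDimensional k W]

/-- number of times the walk goes from `u` to `v` -/
def cnt {a b : V} (q : G.Walk a b) (u v : V) : ℕ :=
  q.darts.countP fun d => d.fst = u ∧ d.snd = v

lemma cnt_cons {a a' b : V} (h : G.Adj a a') (q : G.Walk a' b) (u v : V) :
    cnt (Walk.cons h q) u v = cnt q u v + if a = u ∧ a' = v then 1 else 0 := by
  unfold cnt
  rw [Walk.darts_cons, List.countP_cons]
  simp

lemma cnt_eq_zero {a b : V} (q : G.Walk a b) {u v : V} (h : s(u, v) ∉ q.edges) : cnt q u v = 0 := by
  unfold cnt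
  rw [List.countP_eq_zero]
  intro d hd hdd
  simp only [decide_eq_true_eq] at hdd
  apply h
  rw [Walk.edges, List.mem_map]
  refine ⟨d, hd, ?_⟩
  rw [← hdd.1, ← hdd.2]
  rfl

lemma walk_sum {Y : Type} [AddCommGroup Y] [Module k Y] {D : V → V → Y} {p : V → Y}
    (hD : ∀ u v, G.Adj u v → D u v = p u - p v) {a b : V} (q : G.Walk a b) :
    ∑ u, ∑ v, (cnt q u v : k) • D u v = p a - p b := by
  induction q with
  | nil => simp [cnt]
  | @cons a a' b h q ih =>
    have h1 : ∀ u v, (cnt (Walk.cons h q) u v : k) • D u v =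
        (cnt q u v : k) • D u v + (if a = u ∧ a' = v then (1 : k) else 0) • D u v := by
      intro u v
      rw [cnt_cons, Nat.cast_add, add_smul]
      congr 2
      split_ifs <;> simp
    simp only [h1, Finset.sum_add_distrib]
    rw [ih]
    have h2 : ∑ u, ∑ v, (if a = u ∧ a' = v then (1 : k) else 0) • D u v = D a a' := by
      rw [Finset.sum_eq_single a, Finset.sum_eq_single a']
      · simp
      · intro v _ hv
        rw [if_neg (fun h => hv h.2.symm), zero_smul]
      · simp
      · intro u _ hu
        refine Finset.sum_eq_zero fun v _ => ?_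
        rw [if_neg (fun h => hu h.1.symm), zero_smul]
      · simp
    rw [h2, hD a a' h]
    abel

/-- The closed walk which consists of `w` and the edge `xy` gives a relation. -/
lemma Nondeg.closed (h : Nondeg G ℓ X) [CharZero k] {Y : Type} [AddCommGroup Y] [Module k Y]
    {ν : W →ₗ[k] Y} (hν : Function.Injective ν) {p : V → Y} {c : V → V → k}
    (hc : ∀ u v, G.Adj u v → p u - p v = c u v • ν (X u v))
    {x y : V} (hxy : G.Adj x y) (w : G.Walk y x) (hw : s(x, y) ∉ w.edges) :
    ∃ σ : V → V → k, (∀ u, ∑ v, σ u v • X u v = 0) ∧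
      (∀ u v, G.Adj u v → (p u = p v ∨ (s(u, v) ∉ w.edges ∧ s(u, v) ≠ s(x, y))) →
        σ u v = - σ v u) ∧ σ x y + σ y x = c x y := by
  set n : V → V → k := fun u v => (cnt w u v : k) + if x = u ∧ y = v then 1 else 0 with hn
  have hsum : ∑ u, ∑ v, (n u v * c u v) • X u v = 0 := by
    apply hν
    rw [map_zero, map_sum]
    have h1 : ∀ u, ν (∑ v, (n u v * c u v) • X u v) =
        ∑ v, (cnt w u v : k) • (c u v • ν (X u v)) +
          ∑ v, (if x = u ∧ y = v then (1 : k) else 0) • (c u v • ν (X u v)) := by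
      intro u
      rw [map_sum, ← Finset.sum_add_distrib]
      refine Finset.sum_congr rfl fun v _ => ?_
      rw [map_smul, mul_smul, hn, add_smul]
    simp only [h1, Finset.sum_add_distrib]
    rw [walk_sum (p := p) (D := fun u v => c u v • ν (X u v)) (fun u v huv => (hc u v huv).symm) w]
    have h2 : ∑ u, ∑ v, (if x = u ∧ y = v then (1 : k) else 0) • (c u v • ν (X u v)) =
        c x y • ν (X x y) := by
      rw [Finset.sum_eq_single x, Finset.sum_eq_single y]
      · simp
      · intro v _ hv
        rw [if_neg (fun h => hv h.2.symm), zero_smul]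
      · simp
      · intro u _ hu
        refine Finset.sum_eq_zero fun v _ => ?_
        rw [if_neg (fun h => hu h.1.symm), zero_smul]
      · simp
    rw [h2, ← hc x y hxy]
    abel
  obtain ⟨s, hs, hrel⟩ := h.relation hsum
  refine ⟨fun u v => n u v * c u v - s u v, hrel, ?_, ?_⟩
  · intro u v huv hor
    have h3 : n u v * c u v = 0 ∧ n v u * c v u = 0 := by
      rcases hor with hp | ⟨h1, h2⟩
      · have h4 : ∀ a b, G.Adj a b → p a = p b → c a b = 0 := by
          intro a b hab hpab
          have h5 := hc a b hab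
          rw [hpab, sub_self] at h5
          rcases smul_eq_zero.1 h5.symm with h6 | h6
          · exact h6
          · exact absurd (hν (by rw [h6, map_zero])) (h.ne a b hab)
        exact ⟨by rw [h4 u v huv hp, mul_zero], by rw [h4 v u huv.symm hp.symm, mul_zero]⟩
      · have h5 : n u v = 0 := by
          simp only [hn]
          rw [cnt_eq_zero w h1, if_neg]
          · simp
          · rintro ⟨rfl, rfl⟩
            exact h2 rfl
        have h6 : n v u = 0 := by
          simp only [hn]
          rw [cnt_eq_zero w (by rwa [Sym2.eq_swap]), if_neg]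
          · simp
          · rintro ⟨rfl, rfl⟩
            exact h2 Sym2.eq_swap
        exact ⟨by rw [h5, zero_mul], by rw [h6, zero_mul]⟩
    simp only
    rw [h3.1, h3.2, hs u v]
    ring
  · have h5 : n x y = 1 := by simp [hn, cnt_eq_zero w hw]
    have h6 : n y x = 0 := by
      have h7 : s(y, x) ∉ w.edges := by rwa [Sym2.eq_swap]
      simp [hn, cnt_eq_zero w h7, hxy.ne]
    show n x y * c x y - s x y + (n y x * c y x - s y x) = c x y
    rw [h5, h6, hs y x]
    ring

/-- The main argument: the differences vanish along the edges which are not bridges. -/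
theorem Nondeg.eq_of_not_bridge (h : Nondeg G ℓ X) [CharZero k]
    (hA : ∀ H : G.Subgraph, H.Connected → 2 * H.edgeSet.ncard + 3 ≤ 3 * H.verts.ncard)
    {Y : Type} [AddCommGroup Y] [Module k Y] {ν : W →ₗ[k] Y} (hν : Function.Injective ν)
    {p : V → Y} (hp : ∀ u v, G.Adj u v → ∃ c : k, p u - p v = c • ν (X u v)) {x₀ y₀ : V}
    (hadj₀ : G.Adj x₀ y₀) (hnb₀ : (G.deleteEdges {s(x₀, y₀)}).Connected) : p x₀ = p y₀ := by
  classical
  by_contra hne₀
  have hc : ∀ u v, ∃ c : k, G.Adj u v → p u - p v = c • ν (X u v) := by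
    intro u v
    by_cases huv : G.Adj u v
    · obtain ⟨c, hc⟩ := hp u v huv
      exact ⟨c, fun _ => hc⟩
    · exact ⟨0, fun h => absurd h huv⟩
  choose c hc using hc
  -- the bad edges
  set bad : V → V → Prop := fun u v => p u ≠ p v ∧ (G.deleteEdges {s(u, v)}).Connected with hbad
  have hbsymm : ∀ u v, bad u v → bad v u := by
    rintro u v ⟨h1, h2⟩
    refine ⟨h1.symm, ?_⟩
    rwa [Sym2.eq_swap]
  set G' : SimpleGraph V :=
    { Adj := fun u v => G.Adj u v ∧ ¬ bad u v
      symm := ⟨fun u v hh => ⟨hh.1.symm, fun hb => hh.2 (hbsymm v u hb)⟩⟩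
      loopless := ⟨fun u hh => hh.1.ne rfl⟩ } with hG'
  set O : Finset V := Finset.univ.filter fun v => ∃ w, G.degree w ≠ 3 ∧ G'.Reachable w v with hO
  have hOm : ∀ v, v ∈ O ↔ ∃ w, G.degree w ≠ 3 ∧ G'.Reachable w v := by
    intro v
    simp [hO]
  -- cycles contain no bridges
  have hcyc : ∀ {x y : V} (_ : G.Adj x y) (w : G.Walk y x), w.IsPath → s(x, y) ∉ w.edges →
      ∀ e ∈ w.edges, (G.deleteEdges {e}).Connected := by
    intro x y hxy w hwp hw e he
    have hcy : (Walk.cons hxy w).IsCycle := (Walk.cons_isCycle_iff w hxy).2 ⟨hwp, hw⟩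
    induction e with
    | _ a b =>
      have hab : G.Adj a b := w.adj_of_mem_edges he
      have h1 : ¬ G.IsBridge s(a, b) := by
        intro hbr
        rw [isBridge_iff_forall_cycle_notMem (G.mem_edgeSet.2 hab)] at hbr
        exact hbr (Walk.cons hxy w) hcy (by
          rw [Walk.edges_cons]
          exact List.mem_cons_of_mem _ he)
      rw [isBridge_iff, not_not] at h1
      refine { preconnected := fun u v => ?_, nonempty := ⟨a⟩ }
      obtain ⟨q⟩ := h.conn.preconnected u v
      induction q with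
      | nil => exact Reachable.refl _
      | @cons u u' v huu q ih =>
        refine Reachable.trans ?_ ih
        by_cases hh : s(u, u') = s(a, b)
        · rw [Sym2.eq_iff] at hh
          rcases hh with ⟨rfl, rfl⟩ | ⟨rfl, rfl⟩
          · exact h1
          · exact h1.symm
        · exact Adj.reachable (by
            rw [deleteEdges_adj]
            exact ⟨huu, by simpa using hh⟩)
  -- the argument for one bad edge
  have key : ∀ {x y : V} (_ : G.Adj x y) (_ : bad x y) (w : G.Walk y x) (_ : w.IsPath)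
      (_ : s(x, y) ∉ w.edges) (_ : x ∈ O) {o : V} (_ : o ∈ O) (q : G.Walk y o),
      s(x, y) ∉ q.edges → List.Disjoint w.edges q.edges → False := by
    intro x y hxy hb w hwp hw hx o ho q hq hdis
    obtain ⟨σ, h1, h2, h3⟩ := h.closed hν hc hxy w hw
    have hT : ∀ u, (∃ v, G.Adj u v ∧ σ u v ≠ 0) →
        G.degree u = 3 ∧ ∀ v, G.Adj u v → σ u v ≠ 0 := by
      rintro u ⟨v, hv, hsv⟩
      rcases h.toConf.local (h.deg_le u) (h1 u) with h4 | h4
      · exact absurd (h4 v hv) hsv
      · exact h4
    -- propagation along an edge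
    have hprop : ∀ u v, G.Adj u v → (p u = p v ∨ (s(u, v) ∉ w.edges ∧ s(u, v) ≠ s(x, y))) →
        (∃ v', G.Adj u v' ∧ σ u v' ≠ 0) → ∃ v', G.Adj v v' ∧ σ v v' ≠ 0 := by
      intro u v huv hor hu
      have h4 := (hT u hu).2 v huv
      refine ⟨u, huv.symm, fun h5 => h4 ?_⟩
      rw [h2 u v huv hor, h5, neg_zero]
    have hOT : ∀ u ∈ O, ¬ ∃ v, G.Adj u v ∧ σ u v ≠ 0 := by
      intro u hu hex
      obtain ⟨w₀, hw₀, hr⟩ := (hOm u).1 hu
      obtain ⟨r⟩ := hr.symm
      have hw : ∀ {a b : V} (_ : G'.Walk a b), (∃ v, G.Adj a v ∧ σ a v ≠ 0) →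
          ∃ v, G.Adj b v ∧ σ b v ≠ 0 := by
        intro a b r
        induction r with
        | nil => exact fun h => h
        | @cons a a' b haa r ih =>
          intro ha
          refine ih (hprop a a' haa.1 ?_ ha)
          by_cases hpa : p a = p a'
          · exact Or.inl hpa
          · right
            have hnc : ¬ (G.deleteEdges {s(a, a')}).Connected := fun hcc => haa.2 ⟨hpa, hcc⟩
            refine ⟨fun hmem => hnc (hcyc hxy w hwp hw _ hmem), fun heq => hnc ?_⟩
            rw [heq]
            exact hb.2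
      exact hw₀ (hT w₀ (hw r hex)).1
    have hyT : ¬ ∃ v, G.Adj y v ∧ σ y v ≠ 0 := by
      have hw' : ∀ {a b : V} (r : G.Walk a b), (∀ e ∈ r.edges, e ∉ w.edges ∧ e ≠ s(x, y)) →
          (∃ v, G.Adj a v ∧ σ a v ≠ 0) → ∃ v, G.Adj b v ∧ σ b v ≠ 0 := by
        intro a b r
        induction r with
        | nil => exact fun _ h => h
        | @cons a a' b haa r ih =>
          intro hr ha
          rw [Walk.edges_cons] at hr
          refine ih (fun e he => hr e (List.mem_cons_of_mem _ he))
            (hprop a a' haa (Or.inr (hr _ List.mem_cons_self)) ha)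
      intro hex
      refine hOT o ho (hw' q (fun e he => ⟨fun he' => hdis he' he, fun heq => hq ?_⟩) hex)
      rw [← heq]
      exact he
    have h4 : σ x y = 0 := by
      by_contra h5
      exact hOT x hx ⟨y, hxy, h5⟩
    have h5 : σ y x = 0 := by
      by_contra h6
      exact hyT ⟨x, hxy.symm, h6⟩
    rw [h4, h5, add_zero] at h3
    have h6 := hc x y hxy
    rw [← h3, zero_smul] at h6
    exact hb.1 (sub_eq_zero.1 h6)
  have hnbpath : ∀ {x y : V}, (G.deleteEdges {s(x, y)}).Connected →
      ∃ w : G.Walk y x, w.IsPath ∧ s(x, y) ∉ w.edges := by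
    intro x y hcon
    obtain ⟨q⟩ := hcon.preconnected y x
    obtain ⟨q', hq'⟩ := reachable_deleteEdges_iff_exists_walk.1 (⟨q⟩ : (G.deleteEdges {s(x, y)}).Reachable y x)
    exact ⟨q'.bypass, q'.bypass_isPath, fun he => hq' (q'.edges_bypass_subset_edges he)⟩
  by_cases hall : ∀ v, v ∈ O
  · obtain ⟨w, hwp, hw⟩ := hnbpath hnb₀
    exact key hadj₀ ⟨hne₀, hnb₀⟩ w hwp hw (hall x₀) (hall y₀) Walk.nil (by simp) (by simp)
  · push Not at hall
    obtain ⟨b, hb⟩ := hall
    obtain ⟨w₁, hw₁⟩ := h.deg_ne
    have hw₁O : w₁ ∈ O := (hOm w₁).2 ⟨w₁, hw₁, Reachable.refl _⟩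
    obtain ⟨x, y, hx, hy, hxy⟩ := exists_crossing h.conn O hw₁O hb
    have hbxy : bad x y := by
      by_contra hn
      apply hy
      obtain ⟨w, hw, hr⟩ := (hOm x).1 hx
      exact (hOm y).2 ⟨w, hw, hr.trans (Adj.reachable (G := G') ⟨hxy, hn⟩)⟩
    -- at least two vertices in `O`
    have hO2 : 2 ≤ O.card := by
      by_contra hlt
      have hO1 : ∀ v, v ≠ w₁ → G.degree v = 3 := by
        intro v hv
        by_contra hv3
        have hvO : v ∈ O := (hOm v).2 ⟨v, hv3, Reachable.refl _⟩
        have : ({v, w₁} : Finset V) ⊆ O := by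
          intro z hz
          rw [Finset.mem_insert, Finset.mem_singleton] at hz
          rcases hz with rfl | rfl
          · exact hvO
          · exact hw₁O
        have := Finset.card_le_card this
        rw [Finset.card_pair hv] at this
        omega
      have hsum := G.sum_degrees_eq_twice_card_edges
      have h5 : ∑ v, G.degree v = G.degree w₁ + 3 * (Fintype.card V - 1) := by
        rw [← Finset.add_sum_erase _ _ (Finset.mem_univ w₁),
          Finset.sum_congr rfl fun v hv => hO1 v (Finset.ne_of_mem_erase hv), Finset.sum_const,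
          Finset.card_erase_of_mem (Finset.mem_univ _), Finset.card_univ]
        simp [mul_comm]
      have h6 := hA ⊤ (by
        have := h.conn
        exact (Subgraph.connected_iff'.2 (by
          exact (SimpleGraph.Subgraph.topIso (G := G)).connected_iff.2 this)))
      have h7 : (⊤ : G.Subgraph).edgeSet.ncard = G.edgeFinset.card := by
        rw [← Set.ncard_coe_finset]
        simp
      have h8 : (⊤ : G.Subgraph).verts.ncard = Fintype.card V := by
        rw [Subgraph.verts_top, Set.ncard_univ, Nat.card_eq_fintype_card]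
      rw [h7, h8] at h6
      have h9 : 0 < G.degree w₁ := by
        rw [SimpleGraph.degree_pos_iff_exists_adj]
        obtain ⟨z, hz⟩ : ∃ z, z ≠ w₁ := by
          by_cases hxw : x = w₁
          · exact ⟨y, fun h => hxy.ne (by rw [hxw, h])⟩
          · exact ⟨x, hxw⟩
        obtain ⟨q⟩ := h.conn.preconnected w₁ z
        cases q with
        | nil => exact absurd rfl hz
        | cons hh q => exact ⟨_, hh⟩
      have h10 : 0 < Fintype.card V := Fintype.card_pos_iff.2 ⟨w₁⟩
      omega
    have hcut : ∀ S : Finset V, y ∈ S → Disjoint S O →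
        2 ≤ {q : V × V | q.1 ∈ S ∧ q.2 ∉ S ∧ (G.deleteEdges {s(x, y)}).Adj q.1 q.2}.ncard := by
      intro S hyS hdis
      rw [Finset.disjoint_left] at hdis
      have h5 := cut_three hA hyS (fun v hv => by
        by_contra hv3
        exact hdis hv ((hOm v).2 ⟨v, hv3, Reachable.refl _⟩))
      have h6 : {q : V × V | q.1 ∈ S ∧ q.2 ∉ S ∧ G.Adj q.1 q.2} \ {(y, x)} ⊆
          {q : V × V | q.1 ∈ S ∧ q.2 ∉ S ∧ (G.deleteEdges {s(x, y)}).Adj q.1 q.2} := by
        rintro ⟨u, v⟩ ⟨⟨hu, hv, huv⟩, hne⟩
        refine ⟨hu, hv, ?_⟩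
        rw [deleteEdges_adj]
        refine ⟨huv, fun hmem => ?_⟩
        have hmem' : s(u, v) = s(x, y) := by simpa using hmem
        rw [Sym2.eq_iff] at hmem'
        rcases hmem' with ⟨rfl, rfl⟩ | ⟨rfl, rfl⟩
        · exact hdis hu hx
        · exact hne rfl
      have h7 := Set.ncard_le_ncard h6 (Set.toFinite _)
      have h8 := Set.le_ncard_sdiff {(y, x)} {q : V × V | q.1 ∈ S ∧ q.2 ∉ S ∧ G.Adj q.1 q.2}
      rw [Set.ncard_singleton] at h8
      omega
    obtain ⟨o, ho, P, w, hwp, hdis⟩ := two_walks (x := x) hbxy.2 hO2 hcut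
    have hle : G.deleteEdges {s(x, y)} ≤ G := deleteEdges_le _
    have hnot : ∀ {a b : V} (r : (G.deleteEdges {s(x, y)}).Walk a b), s(x, y) ∉ r.edges := by
      intro a b r he
      have := r.adj_of_mem_edges he
      rw [deleteEdges_adj] at this
      exact this.2 rfl
    refine key hxy hbxy (w.mapLe hle) ((Walk.isPath_mapLe hle).2 hwp) ?_ hx ho (P.mapLe hle) ?_ ?_
    · rw [Walk.edges_mapLe_eq_edges]
      exact hnot w
    · rw [Walk.edges_mapLe_eq_edges]
      exact hnot P
    · rw [Walk.edges_mapLe_eq_edges, Walk.edges_mapLe_eq_edges]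
      exact hdis

end

end Pool.Agent.H53.GB
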